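import Mathlib

/-!
A vertex-transitive digraph of out-degree two on twenty vertices all of whose
Cayley-coset presentations have a stabilizer of order at least four.
-/

namespace Pool.Agent.Results.MP_89824e_co.StabilizerFour

universe u

/-- `φ` is an automorphism of the digraph `D` -/
def IsAut {V : Type*} (D : Digraph V) (φ : Equiv.Perm V) : Prop :=
  ∀ a b, D.Adj a b ↔ D.Adj (φ a) (φ b)

/-- the automorphism group acts transitively on the vertices -/
def IsVertexTransitive {V : Type*} (D : Digraph V) : Prop :=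
  ∀ u v, ∃ φ : Equiv.Perm V, IsAut D φ ∧ φ u = v

/-- the Cayley-coset digraph `D(G, S, H)` on the left cosets of `H`, with an arc from `gH` to
`g'H` whenever `g⁻¹ g' ∈ H S H` -/
def cosetDigraph {G : Type*} [Group G] (S : Set G) (H : Subgroup G) : Digraph (G ⧸ H) where
  Adj x y := ∃ g g' : G, (g : G ⧸ H) = x ∧ (g' : G ⧸ H) = y ∧
    ∃ h ∈ H, ∃ s ∈ S, ∃ h' ∈ H, g⁻¹ * g' = h * s * h'

/-- isomorphism of digraphs -/
def IsIsomorphic {V W : Type*} (D : Digraph V) (E : Digraph W) : Prop :=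
  ∃ e : V ≃ W, ∀ a b, D.Adj a b ↔ E.Adj (e a) (e b)

/-- the vertices of the example -/
abbrev W : Type := ZMod 5 × ZMod 2 × ZMod 2

/-- the example: arcs `(i, x, y) → (i + 1, y, z)` -/
def D5 : Digraph W where
  Adj u v := v.1 = u.1 + 1 ∧ v.2.1 = u.2.2

theorem zmod2_cases : ∀ x : ZMod 2, x = 0 ∨ x = 1 := by decide

/-- the structure of an arc preserving injection -/
theorem aut_struct (φ : W → W) (hinj : Function.Injective φ)
    (h : ∀ a b, D5.Adj a b → D5.Adj (φ a) (φ b)) :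
    ∃ (c : ZMod 5) (a : ZMod 5 → ZMod 2), ∀ i x y, φ (i, x, y) = (i + c, x + a i, y + a (i + 1)) := by
  have hlev : ∀ i x y z, (φ (i + 1, y, z)).1 = (φ (i, x, y)).1 + 1 := fun i x y z =>
    (h (i, x, y) (i + 1, y, z) ⟨rfl, rfl⟩).1
  have hco : ∀ i x y z, (φ (i + 1, y, z)).2.1 = (φ (i, x, y)).2.2 := fun i x y z =>
    (h (i, x, y) (i + 1, y, z) ⟨rfl, rfl⟩).2
  -- the level shift
  have hd1 : ∀ i x y z, (φ (i + 1, y, z)).1 - (i + 1) = (φ (i, x, y)).1 - i := by
    intro i x y z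
    rw [hlev i x y z]; ring
  have hd2 : ∀ i x y, (φ (i, x, y)).1 - i = (φ (i + 1 + 1, 0, 0)).1 - (i + 1 + 1) := by
    intro i x y
    rw [← hd1 i x y 0, ← hd1 (i + 1) y 0 0]
  have hd3 : ∀ i, (φ (i + 1, 0, 0)).1 - (i + 1) = (φ (i, 0, 0)).1 - i := fun i => hd1 i 0 0 0
  have hd4 : ∀ n : ℕ, (φ ((n : ZMod 5), 0, 0)).1 - (n : ZMod 5) = (φ (0, 0, 0)).1 := by
    intro n
    induction n with
    | zero => simp
    | succ n ih => push_cast; rw [hd3, ih]
  have hd5 : ∀ i : ZMod 5, (φ (i, 0, 0)).1 - i = (φ (0, 0, 0)).1 := by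
    intro i
    have := hd4 i.val
    rwa [ZMod.natCast_zmod_val] at this
  have hd : ∀ i x y, (φ (i, x, y)).1 = i + (φ (0, 0, 0)).1 := by
    intro i x y
    have h1 := hd2 i x y
    rw [hd5] at h1
    rw [← h1]; ring
  -- the coordinates
  have hx : ∀ i x y, (φ (i, x, y)).2.1 = (φ (i, x, 0)).2.1 := by
    intro i x y
    have e : i = (i - 1) + 1 := by ring
    rw [e, hco (i - 1) 0 x y, hco (i - 1) 0 x 0]
  have hy : ∀ i x y, (φ (i, x, y)).2.2 = (φ (i + 1, y, 0)).2.1 := by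
    intro i x y
    rw [hco i x y 0]
  have hne : ∀ i, (φ (i, 1, 0)).2.1 ≠ (φ (i, 0, 0)).2.1 := by
    intro i hi
    have h1 : φ (i, 1, 0) = φ (i, 0, 0) := by
      apply Prod.ext
      · exact (hd i 1 0).trans (hd i 0 0).symm
      · apply Prod.ext
        · exact hi
        · rw [hy, hy]
    have h2 := hinj h1
    have h3 : (1 : ZMod 2) = 0 := congrArg (fun t : W => t.2.1) h2
    exact absurd h3 (by decide)
  have hA : ∀ i x, (φ (i, x, 0)).2.1 = x + (φ (i, 0, 0)).2.1 := by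
    intro i x
    have h1 := hne i
    rcases zmod2_cases x with rfl | rfl
    · simp
    · generalize (φ (i, 1, 0)).2.1 = p at *
      generalize (φ (i, 0, 0)).2.1 = q at *
      revert p q
      decide
  refine ⟨(φ (0, 0, 0)).1, fun i => (φ (i, 0, 0)).2.1, ?_⟩
  intro i x y
  apply Prod.ext
  · exact hd i x y
  · apply Prod.ext
    · show (φ (i, x, y)).2.1 = x + (φ (i, 0, 0)).2.1
      rw [hx, hA]
    · show (φ (i, x, y)).2.2 = y + (φ (i + 1, 0, 0)).2.1
      rw [hy, hA]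

/-- the automorphism given by a flip vector and a rotation -/
def mkAut (c : ZMod 5) (a : ZMod 5 → ZMod 2) : Equiv.Perm W where
  toFun u := (u.1 + c, u.2.1 + a u.1, u.2.2 + a (u.1 + 1))
  invFun u := (u.1 - c, u.2.1 - a (u.1 - c), u.2.2 - a (u.1 - c + 1))
  left_inv u := by simp
  right_inv u := by simp

theorem mkAut_isAut (c : ZMod 5) (a : ZMod 5 → ZMod 2) : IsAut D5 (mkAut c a) := by
  intro u v
  unfold D5 mkAut
  simp only [Equiv.coe_fn_mk]
  constructor
  · rintro ⟨h1, h2⟩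
    rw [h1, h2]
    exact ⟨by ring, rfl⟩
  · rintro ⟨h1, h2⟩
    have h3 : v.1 = u.1 + 1 := by
      have : v.1 + c = (u.1 + 1) + c := by rw [h1]; ring
      exact add_right_cancel this
    rw [h3] at h2
    exact ⟨h3, add_right_cancel h2⟩

theorem D5_transitive : IsVertexTransitive D5 := by
  rintro ⟨i, x, y⟩ ⟨j, x', y'⟩
  refine ⟨mkAut (j - i) (fun k => if k = i then x' - x else y' - y), mkAut_isAut _ _, ?_⟩
  have hne : i + 1 ≠ i := by revert i; decide
  unfold mkAut
  simp [hne]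

theorem D5_loopless : ∀ v, ¬ D5.Adj v v := by
  rintro ⟨i, x, y⟩ h
  have h1 : i = i + 1 := h.1
  clear h
  revert i
  decide

theorem D5_outdeg : ∀ v, ({w | D5.Adj v w} : Set W).ncard = 2 := by
  rintro ⟨i, x, y⟩
  have : ({w | D5.Adj (i, x, y) w} : Set W) = {(i + 1, y, 0), (i + 1, y, 1)} := by
    ext ⟨j, p, q⟩
    show (j = i + 1 ∧ p = y) ↔ _
    rw [Set.mem_insert_iff, Set.mem_singleton_iff]
    simp only [Prod.mk.injEq]
    rcases zmod2_cases q with rfl | rfl
    · constructor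
      · exact fun h => Or.inl ⟨h.1, h.2, rfl⟩
      · rintro (h | h)
        · exact ⟨h.1, h.2.1⟩
        · exact ⟨h.1, h.2.1⟩
    · constructor
      · exact fun h => Or.inr ⟨h.1, h.2, rfl⟩
      · rintro (h | h)
        · exact ⟨h.1, h.2.1⟩
        · exact ⟨h.1, h.2.1⟩
  rw [this, Set.ncard_pair]
  intro h
  have h3 : (0 : ZMod 2) = 1 := congrArg (fun t : W => t.2.2) h
  exact absurd h3 (by decide)

/-- a vector of length five -/
def vec5 (a b c d e : ZMod 2) : ZMod 5 → ZMod 2 := fun i =>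
  if i = 0 then a else if i = 1 then b else if i = 2 then c else if i = 3 then d else e

/-- the combination of the five cyclic shifts of `a` with coefficients `k` -/
def comb (k0 k1 k2 k3 k4 : Bool) (a : ZMod 5 → ZMod 2) : ZMod 5 → ZMod 2 := fun i =>
  (bif k0 then a i else 0) + (bif k1 then a (i + 1) else 0) + (bif k2 then a (i + 1 + 1) else 0) +
  (bif k3 then a (i + 1 + 1 + 1) else 0) + (bif k4 then a (i + 1 + 1 + 1 + 1) else 0)

theorem code_aux : ∀ p q r : ZMod 2,
    (∃ k0 k1 k2 k3 k4 : Bool, ∀ i : ZMod 5, vec5 0 0 1 1 0 i = comb k0 k1 k2 k3 k4 (vec5 1 0 p q r) i) ∧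
    (∃ k0 k1 k2 k3 k4 : Bool, ∀ i : ZMod 5, vec5 0 0 0 1 1 i = comb k0 k1 k2 k3 k4 (vec5 1 0 p q r) i) := by
  decide

/-- the cyclic code generated by any vector starting with `1, 0` contains all even vectors
supported on the last three positions -/
theorem code (a : ZMod 5 → ZMod 2) (h0 : a 0 = 1) (h1 : a 1 = 0) :
    (∃ k0 k1 k2 k3 k4 : Bool, vec5 0 0 1 1 0 = comb k0 k1 k2 k3 k4 a) ∧
    (∃ k0 k1 k2 k3 k4 : Bool, vec5 0 0 0 1 1 = comb k0 k1 k2 k3 k4 a) := by
  have ha : a = vec5 1 0 (a 2) (a 3) (a 4) := by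
    funext i
    have : ∀ i : ZMod 5, i = 0 ∨ i = 1 ∨ i = 2 ∨ i = 3 ∨ i = 4 := by decide
    rcases this i with rfl | rfl | rfl | rfl | rfl
    · exact h0
    · exact h1
    · rfl
    · rfl
    · rfl
  rw [ha]
  obtain ⟨⟨k0, k1, k2, k3, k4, h⟩, ⟨l0, l1, l2, l3, l4, h'⟩⟩ := code_aux (a 2) (a 3) (a 4)
  exact ⟨⟨k0, k1, k2, k3, k4, funext h⟩, ⟨l0, l1, l2, l3, l4, funext h'⟩⟩

/-- the core argument for a group acting transitively on the example -/
theorem core {G : Type u} [Group G] (act : G → W → W) (act_one : ∀ w, act 1 w = w)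
    (act_mul : ∀ g h w, act (g * h) w = act g (act h w))
    (act_adj : ∀ g a b, D5.Adj a b → D5.Adj (act g a) (act g b))
    (act_trans : ∀ a b, ∃ g, act g a = b) :
    ∃ s : Fin 4 → G, Function.Injective s ∧ ∀ k, act (s k) (0, 0, 0) = (0, 0, 0) := by
  have act_inj : ∀ g, Function.Injective (act g) := by
    intro g a b h
    have h1 : act g⁻¹ (act g a) = act g⁻¹ (act g b) := by rw [h]
    rwa [← act_mul, ← act_mul, inv_mul_cancel, act_one, act_one] at h1
  have hst := fun g => aut_struct (act g) (act_inj g) (act_adj g)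
  choose c a hca using hst
  -- the set of flip vectors
  let P : (ZMod 5 → ZMod 2) → Prop := fun v => ∃ g : G, ∀ i x y, act g (i, x, y) = (i, x + v i, y + v (i + 1))
  have P0 : P (fun _ => 0) := ⟨1, fun i x y => by rw [act_one]; simp⟩
  have Padd : ∀ v w, P v → P w → P (fun i => v i + w i) := by
    rintro v w ⟨g, hg⟩ ⟨h, hh⟩
    refine ⟨g * h, fun i x y => ?_⟩
    rw [act_mul, hh, hg]
    simp only [Prod.mk.injEq, true_and]
    exact ⟨by ring, by ring⟩
  obtain ⟨g1, hg1⟩ := act_trans (0, 0, 0) (1, 0, 0)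
  have hc1 : c g1 = 1 := by
    have h1 := hca g1 0 0 0
    rw [hg1] at h1
    have h2 : (1 : ZMod 5) = 0 + c g1 := congrArg (fun t : W => t.1) h1
    rw [zero_add] at h2
    exact h2.symm
  have Pshift : ∀ v, P v → P (fun i => v (i + 1)) := by
    rintro v ⟨g, hg⟩
    refine ⟨g1⁻¹ * (g * g1), fun i x y => ?_⟩
    have h1 : act (g * g1) (i, x, y) = act g1 (i, x + v (i + 1), y + v (i + 1 + 1)) := by
      rw [act_mul, hca g1, hg, hca g1, hc1]
      simp only [Prod.mk.injEq, true_and]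
      exact ⟨by ring, by ring⟩
    rw [act_mul, h1, ← act_mul, inv_mul_cancel, act_one]
  have Pif : ∀ (k : Bool) v, P v → P (fun i => bif k then v i else 0) := by
    intro k v hv
    cases k
    · exact P0
    · exact hv
  have Pcomb : ∀ k0 k1 k2 k3 k4 v, P v → P (comb k0 k1 k2 k3 k4 v) := by
    intro k0 k1 k2 k3 k4 v hv
    have s1 := Pshift v hv
    have s2 := Pshift _ s1
    have s3 := Pshift _ s2
    have s4 := Pshift _ s3
    exact Padd _ _ (Padd _ _ (Padd _ _ (Padd _ _ (Pif k0 _ hv) (Pif k1 _ s1)) (Pif k2 _ s2))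
      (Pif k3 _ s3)) (Pif k4 _ s4)
  obtain ⟨g2, hg2⟩ := act_trans (0, 0, 0) (0, 1, 0)
  have h2 := hca g2 0 0 0
  rw [hg2] at h2
  have hc2 : c g2 = 0 := by
    have h3 : (0 : ZMod 5) = 0 + c g2 := congrArg (fun t : W => t.1) h2
    rw [zero_add] at h3
    exact h3.symm
  have ha0 : a g2 0 = 1 := by
    have h3 : (1 : ZMod 2) = 0 + a g2 0 := congrArg (fun t : W => t.2.1) h2
    rw [zero_add] at h3
    exact h3.symm
  have ha1 : a g2 1 = 0 := by
    have h3 : (0 : ZMod 2) = 0 + a g2 (0 + 1) := congrArg (fun t : W => t.2.2) h2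
    rw [zero_add, zero_add] at h3
    exact h3.symm
  have Pa : P (a g2) := ⟨g2, fun i x y => by rw [hca g2, hc2, add_zero]⟩
  obtain ⟨⟨k0, k1, k2, k3, k4, hk⟩, ⟨l0, l1, l2, l3, l4, hl⟩⟩ := code (a g2) ha0 ha1
  have Pw1 : P (vec5 0 0 1 1 0) := by rw [hk]; exact Pcomb _ _ _ _ _ _ Pa
  have Pw2 : P (vec5 0 0 0 1 1) := by rw [hl]; exact Pcomb _ _ _ _ _ _ Pa
  have Pw3 := Padd _ _ Pw1 Pw2
  obtain ⟨r1, hr1⟩ := Pw1
  obtain ⟨r2, hr2⟩ := Pw2
  obtain ⟨r3, hr3⟩ := Pw3
  -- values at two test vertices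
  have t0 : ∀ w : W, act 1 w = w := act_one
  have e10 : act r1 (0, 0, 0) = (0, 0, 0) := by rw [hr1]; decide
  have e20 : act r2 (0, 0, 0) = (0, 0, 0) := by rw [hr2]; decide
  have e30 : act r3 (0, 0, 0) = (0, 0, 0) := by rw [hr3]; decide
  have e11 : act r1 (2, 0, 0) = (2, 1, 1) := by rw [hr1]; decide
  have e21 : act r2 (2, 0, 0) = (2, 0, 1) := by rw [hr2]; decide
  have e31 : act r3 (2, 0, 0) = (2, 1, 0) := by rw [hr3]; decide
  refine ⟨![1, r1, r2, r3], ?_, ?_⟩
  · have hdist : ∀ k : Fin 4, act ((![1, r1, r2, r3] : Fin 4 → G) k) (2, 0, 0) =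
        (![(2, 0, 0), (2, 1, 1), (2, 0, 1), (2, 1, 0)] : Fin 4 → W) k := by
      intro k
      fin_cases k
      · exact t0 _
      · exact e11
      · exact e21
      · exact e31
    intro k l hkl
    have h5 := hdist k
    rw [hkl, hdist l] at h5
    clear hkl hdist
    revert k l
    decide
  · intro k
    fin_cases k
    · exact t0 _
    · exact e10
    · exact e20
    · exact e30

/-- There is a vertex-transitive digraph of out-degree `2` (on `20` vertices) such that in every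
Cayley-coset presentation `D(G, S, H)` of it the subgroup `H` has at least four elements. -/
theorem result : ∃ (V : Type) (_ : Fintype V) (D : Digraph V), Fintype.card V = 20 ∧
    (∀ v, ¬ D.Adj v v) ∧ IsVertexTransitive D ∧ (∀ v, ({w | D.Adj v w} : Set V).ncard = 2) ∧
    ∀ (G : Type u) [Group G] [Finite G] (S : Set G) (H : Subgroup G), (∀ s ∈ S, s ∉ H) →
      IsIsomorphic D (cosetDigraph S H) → 4 ≤ Nat.card H := by
  refine ⟨W, inferInstance, D5, by decide, D5_loopless, D5_transitive, D5_outdeg, ?_⟩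
  intro G _ _ S H _ ⟨e, he⟩
  obtain ⟨s, hs, hs'⟩ := core (G := G) (fun g w => e.symm (g • e w))
    (by intro w; simp) (by intro g h w; simp [mul_smul])
    (by
      intro g a b hab
      rw [he] at hab ⊢
      simp only [Equiv.apply_symm_apply]
      obtain ⟨x, y, hx, hy, hxy⟩ := hab
      refine ⟨g * x, g * y, ?_, ?_, ?_⟩
      · rw [← hx]; rfl
      · rw [← hy]; rfl
      · obtain ⟨h, hh, t, ht, h', hh', heq⟩ := hxy
        exact ⟨h, hh, t, ht, h', hh', by rw [← heq]; group⟩)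
    (by
      intro a b
      obtain ⟨g, hg⟩ := MulAction.exists_smul_eq G (e a) (e b)
      exact ⟨g, by simp [hg]⟩)
  obtain ⟨g0, hg0⟩ := QuotientGroup.mk_surjective (e (0, 0, 0))
  have hmem : ∀ k, g0⁻¹ * s k * g0 ∈ H := by
    intro k
    have h1 : s k • e (0, 0, 0) = e (0, 0, 0) := by
      have := hs' k
      rwa [Equiv.symm_apply_eq] at this
    rw [← hg0] at h1
    have h2 : ((s k * g0 : G) : G ⧸ H) = (g0 : G ⧸ H) := h1
    rw [eq_comm, QuotientGroup.eq] at h2
    rw [mul_assoc]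
    exact h2
  have hinj : Function.Injective (fun k : Fin 4 => (⟨g0⁻¹ * s k * g0, hmem k⟩ : H)) := by
    intro k l hkl
    have h1 : g0⁻¹ * s k * g0 = g0⁻¹ * s l * g0 := congrArg Subtype.val hkl
    exact hs (by simpa using h1)
  have := Nat.card_le_card_of_injective _ hinj
  simpa using this

end Pool.Agent.Results.MP_89824e_co.StabilizerFour
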